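import Pool.Agent.H43.AF.Half

/-!
ROW AFApx (approximation of one disjunction; about 80 lines).  Template: Pool/Agent/H96/RE/Approx.lean.
Induction on `w`: there is `a ∈ A ^ (e * w)` with `a x = 1` at all `x` with all `g j x = 0`, `j ∈ S`, and
`Y_w = {x | (∃ j ∈ S, g j x = 1) ∧ a x ≠ 0}` has `Om Y_w ≤ (1 - q^e/2)^w Om univ`.  Step: `Om_half` for `Y_w` gives `R ⊆ S`, `p = ∑_(i∈R) g i ∈ A ^ e`;
`a' = a * (1 + p)`, `Y_(w+1) ⊆ Y_w ∩ {p = 0}`, `Om_split`.  Finally the approximation is `1 + a` and `Er = Y_w`.  (`A ^ (e * w) * A ^ e = A ^ (e * (w+1))`: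
`pow_add`, `Submodule.mul_mem_mul`; `1 ∈ A ^ e`: `one_mem_pow`.)
-/

set_option autoImplicit false
open scoped Classical

namespace H43AF

variable {X : Type} [Fintype X] {A : Submodule (ZMod 2) (X → ZMod 2)} {L : ℕ → Submodule (ZMod 2) (X → ZMod 2)} {q : ℝ}

theorem approx_or (hF : Flt A L) (h0 : 0 ≤ q) (h1 : q < 1) (e w : ℕ) (S : Finset ℕ) (g : ℕ → X → ZMod 2)
    (hg : ∀ j ∈ S, g j ∈ A ^ e) :
    ∃ (a : X → ZMod 2) (Er : Set X), a ∈ A ^ (e * w) ∧ Om L q Er ≤ (1 - q ^ e / 2) ^ w * Om L q Set.univ ∧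
      ∀ x, x ∉ Er → a x = if ∃ j ∈ S, g j x = 1 then 1 else 0 := by
  sorry

end H43AF
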