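import Pool.Agent.H43.AF.Apx

/-!
ROW AFCktA (approximation of all gates of a circuit; about 100 lines).  PROOF.
Show by induction on `n` (`n ≤ N`): there are `a`, `Er` such that the three conclusions hold for all `i < n` (extend `a`, `Er` at `n` by `Function.update` or by
`if i < n then .. else ..`; or use strong recursion via `Nat.rec` on existence statements).
Input gate: `a n = g n ∈ A = A ^ 1 ≤ A ^ (e (lev n))` (`e 0 ≥ 1` and `e` is monotone up to `d`), `Er n = ∅` (`Om_empty`, `0 ≤ ε * Om univ`).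
Sum gate: `a n = c + ∑_(j ∈ S) a j` (constants are in `A ^ e`), `a j ∈ A ^ (e (lev j)) ≤ A ^ (e (lev n))`, `Er n = ∅`; at `x` outside all `Er j`, `j ≤ n`, every `a j x = g j x`.
Disjunction: if `lev n = 0` then `S = ∅` and `a n = 0`.  If `lev n = h + 1`: all `a j ∈ A ^ (e h)`, `approx_or` with `e := e h`, `w := w (h+1)` gives `a n ∈ A ^ (e h * w (h+1)) ≤ A ^ (e (h+1))` and
`Er n` with `Om ≤ (1 - q^(e h)/2)^(w (h+1)) Om univ ≤ ε Om univ`; outside `Er n` and outside the `Er j` the value is the disjunction of the `g j x`.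
-/

set_option autoImplicit false
open scoped Classical

namespace H43AF

variable {X : Type} [Fintype X] {A : Submodule (ZMod 2) (X → ZMod 2)} {L : ℕ → Submodule (ZMod 2) (X → ZMod 2)} {q : ℝ}

theorem ckt_approx (hF : Flt A L) (h0 : 0 ≤ q) (h1 : q < 1) {d N : ℕ} {V : Set (X → ZMod 2)} (hV : ∀ v ∈ V, v ∈ A)
    {g : ℕ → X → ZMod 2} {lev : ℕ → ℕ} (hC : Ckt V d N g lev) (e w : ℕ → ℕ) (he0 : 1 ≤ e 0)
    (he : ∀ h < d, e h ≤ e (h + 1) ∧ e h * w (h + 1) ≤ e (h + 1)) {ε : ℝ} (hε0 : 0 ≤ ε)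
    (hε : ∀ h < d, (1 - q ^ e h / 2) ^ w (h + 1) ≤ ε) :
    ∃ (a : ℕ → X → ZMod 2) (Er : ℕ → Set X), ∀ i < N, a i ∈ A ^ e (lev i) ∧ Om L q (Er i) ≤ ε * Om L q Set.univ ∧
      ∀ x, (∀ j ≤ i, x ∉ Er j) → a i x = g i x := by
  sorry

end H43AF
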