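import Pool.Agent.H43.AF.Omg

/-!
ROW AFDed (the multiplier argument; about 110 lines).  Template: part (2) of the proof of `thmC` in Pool/Agent/H96/RE/ThmC.lean.
Values in `ZMod 2` are `0` or `1`.  For a line `i < len` put `z_i x = 1 + g (l i) x` (`1` iff the line is false).
`K_pow`: `h ∈ A ^ e`, `g ∈ K`, `g ∈ L D`, `D + e ≤ D0` ⟹ `h * g ∈ K` (induction on `e`, `A ^ (e+1) = A * A ^ e`, `Submodule.mul_induction_on`; `pow_mul_mem`).
CLAIM: `φ * z_i ∈ K` for all `i < len` (strong induction).  As `φ x ≠ 0 → a (l i) x = g (l i) x`: `φ * z_i = φ * (1 + a (l i))` which is in `L (D + E0)`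
(`a (l i) ∈ A ^ E0`).
 Axiom line (`x ∉ Z j → g (l i) x = 1`): `φ * z_i` vanishes outside `Z j`, so it equals `fun x => if x ∈ Z j then (φ * z_i) x else 0`: in `K` by `hK1`.
 Inference from `J`: where `z_i x = 1`, some `z_j x = 1`, `j ∈ J`.  So `φ * z_i = φ * z_i * (1 + ∏_(j∈J) (1 + z_j))`.  Show by induction on `J' ⊆ J` (finset induction) that
 `φ * z_i * (1 + ∏_(j∈J') (1 + z_j)) ∈ K`: `1 + (1 + z_j) Π = (1 + Π) + z_j Π`, and `φ z_i z_j Π = (φ z_j) * (z_i' * Π')` where `z_i' = 1 + a (l i)`, `Π' = ∏ a (l j')` (`1 + z_j' = g (l j')`, which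
 equals `a (l j')` where `φ ≠ 0`); `φ z_j ∈ K ⊓ L (D + E0)`, the second factor is in `A ^ (E0 + E0 * card J')`, and `D + E0 + E0 + E0 (f - 1) ≤ D + (f+1) E0 ≤ D0`.
Last: the line which is `0` everywhere has `z = 1`, so `φ = φ * z ∈ K`.
-/

set_option autoImplicit false
open scoped Classical

namespace H43AF

variable {X : Type} [Fintype X] {A : Submodule (ZMod 2) (X → ZMod 2)} {L : ℕ → Submodule (ZMod 2) (X → ZMod 2)}

theorem ded {ι : Type} (hF : Flt A L) (K : Submodule (ZMod 2) (X → ZMod 2)) {D0 D1 : ℕ}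
    (hK2 : ∀ D < D0, ∀ a ∈ A, ∀ g ∈ K, g ∈ L D → a * g ∈ K) (Z : ι → Set X)
    (hK1 : ∀ g ∈ L D1, ∀ j, (fun x => if x ∈ Z j then g x else 0) ∈ K)
    {N f len : ℕ} {g : ℕ → X → ZMod 2} {l : ℕ → ℕ} (hl : ∀ i < len, l i < N) (hlast : ∃ i < len, ∀ x, g (l i) x = 0)
    (hline : ∀ i < len, (∃ j, ∀ x, x ∉ Z j → g (l i) x = 1) ∨
      ∃ J : Finset ℕ, J.card ≤ f ∧ (∀ j ∈ J, j < i) ∧ ∀ x, (∀ j ∈ J, g (l j) x = 1) → g (l i) x = 1)
    (a : ℕ → X → ZMod 2) (E0 : ℕ) (ha : ∀ i < N, a i ∈ A ^ E0) {D : ℕ} (φ : X → ZMod 2) (hφ : φ ∈ L D)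
    (hφa : ∀ i < N, ∀ x, φ x ≠ 0 → a i x = g i x) (hD1 : D + E0 ≤ D1) (hD0 : D + (f + 1) * E0 ≤ D0) : φ ∈ K := by
  sorry

end H43AF
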