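import Mathlib

/-!
Definitions for project MP_28250c_AF (helper43; no row): superpolynomial lower bounds for constant depth proofs with parity
gates.  The proof is in /team-store/H43_AC0P.md.  `F = ZMod 2`.

General part.  `X` = finite set of points, `A` = the functions `X → F` of degree at most 1 (`1 ∈ A`), `A ^ e` (power of submodules
of the algebra `X → F`) = the functions of degree at most `e`; `L D` = increasing family of spaces of functions with `A * L D ≤ L (D+1)`.
`rk L D Y` = rank of `L D` restricted to `Y`, `Om L q Y = (1 - q) ∑_D q ^ D rk L D Y`.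

Blocks.  Points are `x : Fin m → P`; `bs` = basis of the functions on one block, `cost : K → ℕ` the costs (at most `Λ`) of its
elements; `tb bs κ` = product basis, `ct cost κ` its cost, `LL bs cost D` = span of the product functions of cost at most `D`.
`p : P → F` is the gadget, `Zs j` = points at which clause `j` is violated by `p (x i)`, `i ∈ S j`.
-/

set_option autoImplicit false
open scoped Classical

namespace H43AF

/-- the functions which vanish on `Y` -/
def van {X : Type} (Y : Set X) : Submodule (ZMod 2) (X → ZMod 2) where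
  carrier := {g | ∀ x ∈ Y, g x = 0}
  add_mem' := by
    intro f g hf hg x hx
    rw [Pi.add_apply, hf x hx, hg x hx, add_zero]
  zero_mem' := fun x _ => rfl
  smul_mem' := by
    intro a f hf x hx
    rw [Pi.smul_apply, hf x hx, smul_zero]

/-- the rank of the restriction of `L D` to `Y` -/
noncomputable def rk {X : Type} (L : ℕ → Submodule (ZMod 2) (X → ZMod 2)) (D : ℕ) (Y : Set X) : ℕ :=
  Module.finrank (ZMod 2) ↥(L D) - Module.finrank (ZMod 2) ↥(L D ⊓ van Y)

/-- the measure -/
noncomputable def Om {X : Type} (L : ℕ → Submodule (ZMod 2) (X → ZMod 2)) (q : ℝ) (Y : Set X) : ℝ :=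
  (1 - q) * ∑' D : ℕ, q ^ D * (rk L D Y : ℝ)

/-- `L` is a filtered module over the filtered algebra generated by `A` -/
structure Flt {X : Type} (A : Submodule (ZMod 2) (X → ZMod 2)) (L : ℕ → Submodule (ZMod 2) (X → ZMod 2)) : Prop where
  one : (1 : X → ZMod 2) ∈ A
  mono : ∀ D, L D ≤ L (D + 1)
  mul : ∀ D, ∀ a ∈ A, ∀ g ∈ L D, a * g ∈ L (D + 1)

/-- `g 0, …, g (N-1)` is a circuit over the inputs `V` with levels `lev ≤ d`: every gate is an input, or a constant plus the
sum (modulo 2) of some earlier gates of at most the same level, or the disjunction of some earlier gates of smaller level -/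
def Ckt {X : Type} (V : Set (X → ZMod 2)) (d N : ℕ) (g : ℕ → X → ZMod 2) (lev : ℕ → ℕ) : Prop :=
  ∀ i < N, lev i ≤ d ∧ (g i ∈ V ∨
    (∃ (c : ZMod 2) (S : Finset ℕ), (∀ j ∈ S, j < i ∧ lev j ≤ lev i) ∧ ∀ x, g i x = c + ∑ j ∈ S, g j x) ∨
    (∃ S : Finset ℕ, (∀ j ∈ S, j < i ∧ lev j < lev i) ∧ ∀ x, g i x = if ∃ j ∈ S, g j x = 1 then 1 else 0))

/-- a refutation of the constraints `φ j = 1` with `N` gates of level `≤ d`: the lines are gates `l 0, …, l (len-1)`; every
line is implied by some `φ j` or by at most `f` earlier lines; some line is false everywhere -/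
def Refutes {X ι : Type} (V : Set (X → ZMod 2)) (d f N : ℕ) (φ : ι → X → ZMod 2) : Prop :=
  ∃ (g : ℕ → X → ZMod 2) (lev : ℕ → ℕ) (len : ℕ) (l : ℕ → ℕ), Ckt V d N g lev ∧ (∀ i < len, l i < N) ∧
    (∃ i < len, ∀ x, g (l i) x = 0) ∧
    ∀ i < len, (∃ j, ∀ x, φ j x = 1 → g (l i) x = 1) ∨
      ∃ J : Finset ℕ, J.card ≤ f ∧ (∀ j ∈ J, j < i) ∧ ∀ x, (∀ j ∈ J, g (l j) x = 1) → g (l i) x = 1

/-- `u` is computed by a circuit with at most `s` gates of level `≤ d` over the inputs `V` -/
def Comp {X : Type} (V : Set (X → ZMod 2)) (d s : ℕ) (u : X → ZMod 2) : Prop :=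
  ∃ (N : ℕ) (g : ℕ → X → ZMod 2) (lev : ℕ → ℕ), N + 1 ≤ s ∧ Ckt V d (N + 1) g lev ∧ g N = u

/-! ### Blocks -/

section
variable {m : ℕ} {P K : Type}

/-- product of block functions -/
noncomputable def tb (bs : K → P → ZMod 2) (κ : Fin m → K) : (Fin m → P) → ZMod 2 := fun x => ∏ i, bs (κ i) (x i)

/-- span of product functions -/
noncomputable def spn (bs : K → P → ZMod 2) (F : Set (Fin m → K)) : Submodule (ZMod 2) ((Fin m → P) → ZMod 2) :=
  Submodule.span (ZMod 2) (tb bs '' F)

/-- total cost -/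
def ct (cost : K → ℕ) (κ : Fin m → K) : ℕ := ∑ i, cost (κ i)

/-- the functions of cost at most `D` -/
noncomputable def LL (m : ℕ) (bs : K → P → ZMod 2) (cost : K → ℕ) (D : ℕ) : Submodule (ZMod 2) ((Fin m → P) → ZMod 2) :=
  spn bs {κ : Fin m → K | ct cost κ ≤ D}

/-- the linear map `A` applied in block `v` -/
noncomputable def bop (v : Fin m) (A : (P → ZMod 2) →ₗ[ZMod 2] (P → ZMod 2)) :
    ((Fin m → P) → ZMod 2) →ₗ[ZMod 2] ((Fin m → P) → ZMod 2) where
  toFun g := fun x => A (fun z => g (Function.update x v z)) (x v)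
  map_add' := by
    intro g h
    funext x
    have e : (fun z => (g + h) (Function.update x v z)) =
        (fun z => g (Function.update x v z)) + (fun z => h (Function.update x v z)) := rfl
    rw [e, map_add]
    rfl
  map_smul' := by
    intro c g
    funext x
    have e : (fun z => (c • g) (Function.update x v z)) = c • (fun z => g (Function.update x v z)) := rfl
    rw [e, map_smul]
    rfl

/-- the functions of degree at most 1: span of `x ↦ a (x i)`, `a ∈ A0` -/
noncomputable def AA (m : ℕ) (A0 : Submodule (ZMod 2) (P → ZMod 2)) : Submodule (ZMod 2) ((Fin m → P) → ZMod 2) :=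
  Submodule.span (ZMod 2) {g | ∃ (i : Fin m) (a : P → ZMod 2), a ∈ A0 ∧ g = fun x => a (x i)}

/-- the queried blocks -/
noncomputable def Qu (cost : K → ℕ) (Λ : ℕ) (κ : Fin m → K) : Finset (Fin m) := Finset.univ.filter (fun i => cost (κ i) = Λ)

variable {ι : Type}

/-- the points violating clause `j` -/
def Zs (p : P → ZMod 2) (S : ι → Finset (Fin m)) (σ : ι → Fin m → ZMod 2) (j : ι) : Set (Fin m → P) :=
  {x | ∀ i ∈ S j, p (x i) = σ j i}

/-- the points violating no clause of `J` -/
def Sat (p : P → ZMod 2) (S : ι → Finset (Fin m)) (σ : ι → Fin m → ZMod 2) (J : Finset ι) : Set (Fin m → P) :=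
  {x | ∀ j ∈ J, x ∉ Zs p S σ j}

/-- the functions which vanish on `Sat J` -/
def Idl (p : P → ZMod 2) (S : ι → Finset (Fin m)) (σ : ι → Fin m → ZMod 2) (J : Finset ι) :
    Submodule (ZMod 2) ((Fin m → P) → ZMod 2) := van (Sat p S σ J)

/-- injective rank refining the cost -/
def IsRk (cost : K → ℕ) (ρ : (Fin m → K) → ℕ) : Prop :=
  Function.Injective ρ ∧ ∀ κ κ' : Fin m → K, ct cost κ < ct cost κ' → ρ κ < ρ κ'

/-- `κ` is `J`-reducible -/
def Red (bs : K → P → ZMod 2) (ρ : (Fin m → K) → ℕ) (p : P → ZMod 2) (S : ι → Finset (Fin m)) (σ : ι → Fin m → ZMod 2)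
    (J : Finset ι) (κ : Fin m → K) : Prop := ∃ g ∈ spn bs {κ' | ρ κ' < ρ κ}, tb bs κ + g ∈ Idl p S σ J

/-- span of the irreducible product functions -/
noncomputable def NF (bs : K → P → ZMod 2) (ρ : (Fin m → K) → ℕ) (p : P → ZMod 2) (S : ι → Finset (Fin m))
    (σ : ι → Fin m → ZMod 2) (J : Finset ι) : Submodule (ZMod 2) ((Fin m → P) → ZMod 2) :=
  spn bs {κ | ¬ Red bs ρ p S σ J κ}

end

/-- the blocks of `J` -/
noncomputable def Vr {m : ℕ} {ι : Type} (S : ι → Finset (Fin m)) (J : Finset ι) : Finset (Fin m) := J.biUnion S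

/-- the boundary of `J`: the blocks in exactly one clause of `J` -/
noncomputable def bd {m : ℕ} {ι : Type} (S : ι → Finset (Fin m)) (J : Finset ι) : Finset (Fin m) :=
  Finset.univ.filter (fun v => ∃ j ∈ J, v ∈ S j ∧ ∀ j' ∈ J, v ∈ S j' → j' = j)

/-- `J` is `Q`-contained -/
def Con {m : ℕ} {ι : Type} (S : ι → Finset (Fin m)) (s : ℕ) (Q : Finset (Fin m)) (J : Finset ι) : Prop :=
  J.card ≤ s ∧ bd S J ⊆ Q

/-- the union of the `Q`-contained sets -/
noncomputable def Sup {m : ℕ} {ι : Type} [Fintype ι] (S : ι → Finset (Fin m)) (s : ℕ) (Q : Finset (Fin m)) : Finset ι :=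
  Finset.univ.filter (fun j => ∃ J, Con S s Q J ∧ j ∈ J)

/-- expansion -/
def Expn {m : ℕ} {ι : Type} (S : ι → Finset (Fin m)) (t s : ℕ) : Prop :=
  ∀ J : Finset ι, J.Nonempty → J.card ≤ s → t * J.card < (bd S J).card

/-- the gadget `p` with costs at most `Λ`: `E c` reads a function only on `p = c`, is the identity on the basis functions of
cost less than `Λ` and has values in their span; multiplication by a function of `A0` raises the cost by at most 1 -/
structure Gdt {P K : Type} (bs : K → P → ZMod 2) (cost : K → ℕ) (Λ : ℕ) (p : P → ZMod 2)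
    (A0 : Submodule (ZMod 2) (P → ZMod 2)) (E : ZMod 2 → ((P → ZMod 2) →ₗ[ZMod 2] (P → ZMod 2))) : Prop where
  indep : LinearIndependent (ZMod 2) bs
  spans : ∀ h : P → ZMod 2, h ∈ Submodule.span (ZMod 2) (Set.range bs)
  pos : 1 ≤ Λ
  le : ∀ k, cost k ≤ Λ
  loc : ∀ c h, (∀ z, p z = c → h z = 0) → E c h = 0
  idn : ∀ c k, cost k < Λ → E c (bs k) = bs k
  val : ∀ c h, E c h ∈ Submodule.span (ZMod 2) (bs '' {k | cost k < Λ})
  one : (1 : P → ZMod 2) ∈ A0
  mul : ∀ a ∈ A0, ∀ k, a * bs k ∈ Submodule.span (ZMod 2) (bs '' {k' | cost k' ≤ cost k + 1})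

end H43AF
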