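import Pool.Agent.H43.AF.Omg

/-!
ROW AFHalf (a random sum covers half; about 70 lines).  Template: Pool/Agent/H96/RE/Half.lean.
For `R ∈ T.powerset` put `p_R = ∑_(i ∈ R) g i`.  For each `D`, with `B` from `rk_basis L D Y`,
`∑_R rk L D (Y ∩ {p_R = 1}) ≥ ∑_R #{x ∈ B | p_R x = 1} = ∑_(x ∈ B) #{R | p_R x = 1} = B.card * 2^(|T|-1)` because some `g i x = 1`, `i ∈ T`, and toggling `i`
in `R` changes `p_R x`.  So `∑_R Om (Y ∩ {p_R = 1}) ≥ 2^|T| * Om Y / 2` (sum the series: `Summable.tsum_finsetSum`), and some `R` has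
`Om (Y ∩ {p_R = 1}) ≥ Om Y / 2` (`Finset.exists_le_of_sum_le`).
-/

set_option autoImplicit false
open scoped Classical

namespace H43AF

variable {X : Type} [Fintype X] {L : ℕ → Submodule (ZMod 2) (X → ZMod 2)} {q : ℝ}

theorem Om_half (h0 : 0 ≤ q) (h1 : q < 1) (T : Finset ℕ) (g : ℕ → X → ZMod 2) (Y : Set X)
    (hY : ∀ x ∈ Y, ∃ i ∈ T, g i x = 1) :
    ∃ R ⊆ T, Om L q Y / 2 ≤ Om L q (Y ∩ {x | (∑ i ∈ R, g i x) = 1}) := by
  sorry

end H43AF
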