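import Pool.Agent.H43.AF.Tb
import Pool.Agent.H43.AF.Rk

/-!
ROW AFLLF (the filtration of the product functions; about 110 lines).  PROOF.
`spn_finrank`: `tb_indep` restricted to `F` (`finrank_span_eq_card`).
`mul_tb`: for `a ∈ A0` the function `x ↦ a (x i) * tb bs κ x` is `bop i (LinearMap.mulLeft _ a) (tb bs κ)` (or use `prod_mem` directly): it is in
`spn bs {update κ i k | cost k ≤ cost (κ i) + 1}`.
`LL_flt`: `one`: `1 = fun x => (1 : P → F) (x 0)` (`0 < m`).  `mono`: `Submodule.span_mono`.  `mul`: span induction over `AA` and over `LL` (`Submodule.span_induction`), `mul_tb`;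
`ct (update κ i k) + cost (κ i) = ct κ + cost k` (`Finset.sum_update_of_mem` or `Finset.add_sum_erase`).
`Om_univ'`: `rk univ = finrank (LL D) = #{κ | ct κ ≤ D}` (`rk_univ`, `spn_finrank`), `∑'_D q^D #{κ | ct κ ≤ D} = ∑_κ ∑'_D [ct κ ≤ D] q^D = ∑_κ q^(ct κ)/(1-q)`
(`Summable.tsum_finsetSum`, geometric series shifted by `ct κ`), and `∑_κ q^(ct κ) = ∑_κ ∏_i q^(cost (κ i)) = (∑_k q^(cost k))^m` (`Finset.prod_pow_eq_pow_sum`, `Fintype.sum_pow`).
-/

set_option autoImplicit false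
open scoped Classical

namespace H43AF

variable {m : ℕ} {P K : Type} [Fintype P] [Fintype K] {bs : K → P → ZMod 2} {cost : K → ℕ} {Λ : ℕ} {p : P → ZMod 2}
  {A0 : Submodule (ZMod 2) (P → ZMod 2)} {E : ZMod 2 → ((P → ZMod 2) →ₗ[ZMod 2] (P → ZMod 2))}

theorem spn_finrank (hG : Gdt bs cost Λ p A0 E) (F : Finset (Fin m → K)) :
    Module.finrank (ZMod 2) ↥(spn bs (F : Set (Fin m → K))) = F.card := by
  sorry

theorem ct_update (κ : Fin m → K) (i : Fin m) (k : K) :
    ct cost (Function.update κ i k) + cost (κ i) = ct cost κ + cost k := by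
  sorry

theorem mul_tb (hG : Gdt bs cost Λ p A0 E) (i : Fin m) {a : P → ZMod 2} (ha : a ∈ A0) (κ : Fin m → K) :
    (fun x : Fin m → P => a (x i) * tb bs κ x) ∈
      spn bs {κ' : Fin m → K | ∃ k, cost k ≤ cost (κ i) + 1 ∧ κ' = Function.update κ i k} := by
  sorry

theorem LL_flt (hG : Gdt bs cost Λ p A0 E) (hm : 0 < m) : Flt (AA m A0) (LL m bs cost) := by
  sorry

theorem Om_univ' (hG : Gdt bs cost Λ p A0 E) {q : ℝ} (h0 : 0 ≤ q) (h1 : q < 1) :
    Om (LL m bs cost) q (Set.univ : Set (Fin m → P)) = (∑ k, q ^ cost k) ^ m := by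
  sorry

end H43AF
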