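import Pool.Agent.H43.AF.Defs

/-!
ROW AFSpt (supports; pure combinatorics; about 130 lines).  PROOF.  `bd J ⊆ Vr J`, `bd (J ∪ J') ⊆ bd J ∪ bd J'`.
`con_half`: `J` nonempty, contained in `Q`: `t |J| < |bd J| ≤ |Q| ≤ q0`, so `t (2 |J|) < 2 q0 ≤ t s`, so `2 |J| < s`.
`sup_con`: the union of two contained sets has at most `s` elements and its boundary is in `Q`; induction over `Sup` (every `j ∈ Sup` lies in a contained set; show that for every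
`T ⊆ Sup` there is a contained set including `T`, `Finset.induction_on`; for `T = Sup` the contained set is equal to `Sup`).
`sup_sub`: `J = Sup Q ∪ Sup Q'` has at most `s` elements; `v ∈ bd J` with its unique `j`: if `v ∈ Vr (Sup Q)` then `j ∈ Sup Q` and `v ∈ bd (Sup Q) ⊆ Q`; otherwise `j ∈ Sup Q'`,
`v ∈ bd (Sup Q') ⊆ Q' ⊆ Q ∪ Vr (Sup Q)`, so `v ∈ Q`.  So `J` is contained in `Q`.
`sup_empty`: `J` contained and nonempty: `|bd J| ≤ ∑_(j∈J) |Q ∩ S j| ≤ t |J| < |bd J|` (`bd J ⊆ J.biUnion (Q ∩ S ·)`).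
`sup_priv`: `J ≠ Sup Q`, `Sup Q ⊆ J`: `J` is not contained, so some `v ∈ bd J` is not in `Q`; its unique `j` is not in `Sup Q`, otherwise `v ∈ bd (Sup Q) ⊆ Q`.
`mem_sup`: `{j}` is contained: `bd {j} = S j`.
-/

set_option autoImplicit false
open scoped Classical

namespace H43AF

variable {m : ℕ} {ι : Type} [Fintype ι] {S : ι → Finset (Fin m)} {t s q0 : ℕ}

theorem con_half (hE : Expn S t s) (hq : 2 * q0 ≤ t * s) {Q : Finset (Fin m)} (hQ : Q.card ≤ q0) {J : Finset ι}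
    (hJ : Con S s Q J) (hJ0 : J.Nonempty) : 2 * J.card ≤ s := by
  sorry

theorem sup_con (hE : Expn S t s) (hq : 2 * q0 ≤ t * s) {Q : Finset (Fin m)} (hQ : Q.card ≤ q0) :
    Con S s Q (Sup S s Q) ∧ 2 * (Sup S s Q).card ≤ s := by
  sorry

theorem sup_mono {Q Q' : Finset (Fin m)} (h : Q ⊆ Q') : Sup S s Q ⊆ Sup S s Q' := by
  sorry

theorem sup_sub (hE : Expn S t s) (hq : 2 * q0 ≤ t * s) {Q Q' : Finset (Fin m)} (hQ : Q.card ≤ q0) (hQ' : Q'.card ≤ q0)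
    (h : Q' ⊆ Q ∪ Vr S (Sup S s Q)) : Sup S s Q' ⊆ Sup S s Q := by
  sorry

theorem sup_empty (hE : Expn S t s) {Q : Finset (Fin m)} (h : ∀ j, (Q ∩ S j).card ≤ t) : Sup S s Q = ∅ := by
  sorry

theorem sup_priv (hE : Expn S t s) (hq : 2 * q0 ≤ t * s) {Q : Finset (Fin m)} (hQ : Q.card ≤ q0) {J : Finset ι}
    (hJ : J.card ≤ s) (hSJ : Sup S s Q ⊆ J) (hne : J ≠ Sup S s Q) :
    ∃ v j, v ∉ Q ∧ j ∈ J ∧ j ∉ Sup S s Q ∧ v ∈ S j ∧ ∀ j' ∈ J, v ∈ S j' → j' = j := by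
  sorry

theorem mem_sup (hs : 1 ≤ s) {Q : Finset (Fin m)} {j : ι} (h : S j ⊆ Q) : j ∈ Sup S s Q := by
  sorry

end H43AF
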