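import Pool.Agent.H43.AF.LLF
import Pool.Agent.H43.AF.Spt

/-!
ROW AFLoc (locality of reducibility; about 120 lines).  PROOF.
`red_step`: let `c = σ j v + 1`.  `tb κ + g ∈ Idl J`, `g ∈ spn {ρ < ρ κ}`.  Apply `bop v (E c)`.  (1) `bop v (E c) (tb κ) = tb κ` (`bop_id`, `hG.idn`, `cost (κ v) < Λ`).
(2) `bop v (E c) g ∈ spn {ρ < ρ κ}` (span induction): for `κ'` with `ρ κ' < ρ κ`: if `cost (κ' v) < Λ` it is `tb κ'`; otherwise `cost (κ' v) = Λ` (`hG.le`) and by `bop_mem` with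
`U = {k | cost k < Λ}` (`hG.val`) it is in the span of `tb (update κ' v k)`, `cost k < Λ`; these have smaller `ct` (`ct_update`), hence smaller `ρ` (`hρ.2`).
(3) The result is in `Idl (J.erase j)`: let `x ∈ Sat (J.erase j)`.  For every `z` with `p z = c` the point `x' = update x v z` is in `Sat J`: it does not violate `j` (at `v` the value is
`p (x' v) = c ≠ σ j v`), and for `j' ∈ J`, `j' ≠ j`: `v ∉ S j'`, so `x'` violates `j'` iff `x` does.  So `fun z => (tb κ + g) (update x v z)` vanishes on `p = c` and `hG.loc` gives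
`bop v (E c) (tb κ + g) x = 0`.
`red_sup`: induction on `J.card`: if `J ≠ Sup (Qu κ)` use `sup_priv`, `red_step` and the induction hypothesis for `J.erase j` (it still contains `Sup (Qu κ)`).
`red_mono`: `Sat J' ⊆ Sat J` so `Idl J ≤ Idl J'` for `J ⊆ J'`.
-/

set_option autoImplicit false
open scoped Classical

namespace H43AF

variable {m : ℕ} {P K : Type} [Fintype P] [Fintype K] {bs : K → P → ZMod 2} {cost : K → ℕ} {Λ : ℕ} {p : P → ZMod 2}
  {A0 : Submodule (ZMod 2) (P → ZMod 2)} {E : ZMod 2 → ((P → ZMod 2) →ₗ[ZMod 2] (P → ZMod 2))}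
  {ρ : (Fin m → K) → ℕ} {ι : Type} [Fintype ι] {S : ι → Finset (Fin m)} {σ : ι → Fin m → ZMod 2} {t s q0 : ℕ}

omit [Fintype P] [Fintype K] [Fintype ι] in
theorem idl_mono {J J' : Finset ι} (h : J ⊆ J') : Idl p S σ J ≤ Idl p S σ J' := by
  sorry

omit [Fintype P] [Fintype K] [Fintype ι] in
theorem red_mono {J J' : Finset ι} (h : J ⊆ J') {κ : Fin m → K} (hr : Red bs ρ p S σ J κ) : Red bs ρ p S σ J' κ := by
  sorry

omit [Fintype ι] in
theorem red_step (hG : Gdt bs cost Λ p A0 E) (hρ : IsRk cost ρ) {J : Finset ι} {κ : Fin m → K} {j : ι} {v : Fin m}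
    (hv : cost (κ v) < Λ) (hvj : v ∈ S j) (hu : ∀ j' ∈ J, v ∈ S j' → j' = j) (hr : Red bs ρ p S σ J κ) :
    Red bs ρ p S σ (J.erase j) κ := by
  sorry

theorem red_sup (hG : Gdt bs cost Λ p A0 E) (hρ : IsRk cost ρ) (hE : Expn S t s) (hq : 2 * q0 ≤ t * s)
    {κ : Fin m → K} (hκ : (Qu cost Λ κ).card ≤ q0) {J : Finset ι} (hJ : J.card ≤ s) (hSJ : Sup S s (Qu cost Λ κ) ⊆ J)
    (hr : Red bs ρ p S σ J κ) : Red bs ρ p S σ (Sup S s (Qu cost Λ κ)) κ := by
  sorry

end H43AF
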