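import Pool.Agent.H43.AF.Tb

/-!
ROW AFNrm (normal forms; about 140 lines).  PROOF.
`nf_zero`: `g = ∑_(κ irreducible) c κ • tb κ`; if `g ≠ 0` take `κ` with `c κ ≠ 0` and the largest `ρ κ` (`ρ` injective): `tb κ + (rest) = g ∈ Idl J` (coefficients in `ZMod 2` are `0`, `1`),
the rest is in `spn {ρ < ρ κ}`: `κ` is reducible, contradiction.
`out_op` (for `κ` and `J` a linear operator `Π`): compose the operators `bop i (π_i)`, `π_i` = `proj` for `k0 = κ i`, over all `i ∉ Vr S J` (induction over a finset `T` of blocks disjoint from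
`Vr S J`: `Π` maps `Idl J` to `Idl J`, fixes `tb κ'` if `κ' i = κ i` for all `i ∈ T`, and kills `tb κ'` otherwise: `bop_id`, `bop_zero`).  `bop i π` maps `Idl J` to itself for `i ∉ Vr S J`: if
`x ∈ Sat J` then `Function.update x i z ∈ Sat J` for all `z`, so `fun z => g (update x i z)` is the zero function.
`nf_exists`: strong induction on `ρ κ`.  `κ` irreducible: `h = tb κ` (`tb κ + tb κ = 0`).  `κ` reducible: `tb κ + g ∈ Idl J`, `g ∈ spn {ρ < ρ κ}`; apply `Π`: `tb κ + Π g ∈ Idl J` and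
`Π g ∈ spn {κ' | ρ κ' < ρ κ ∧ ∀ i ∉ Vr S J, κ' i = κ i}` (span induction).  For every element `g'` of this span there is `h` in the span of the statement with `g' + h ∈ Idl J`
(span induction, induction hypothesis; characteristic 2).
-/

set_option autoImplicit false
open scoped Classical

namespace H43AF

variable {m : ℕ} {P K : Type} [Fintype P] [Fintype K] {bs : K → P → ZMod 2} {ρ : (Fin m → K) → ℕ} {p : P → ZMod 2} {ι : Type}
  {S : ι → Finset (Fin m)} {σ : ι → Fin m → ZMod 2}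

theorem nf_zero (hli : LinearIndependent (ZMod 2) bs) (hsp : ∀ h : P → ZMod 2, h ∈ Submodule.span (ZMod 2) (Set.range bs))
    (hρ : Function.Injective ρ) {J : Finset ι} {g : (Fin m → P) → ZMod 2} (h1 : g ∈ NF bs ρ p S σ J)
    (h2 : g ∈ Idl p S σ J) : g = 0 := by
  sorry

theorem out_op (hli : LinearIndependent (ZMod 2) bs) (hsp : ∀ h : P → ZMod 2, h ∈ Submodule.span (ZMod 2) (Set.range bs))
    (J : Finset ι) (κ : Fin m → K) :
    ∃ Pr : ((Fin m → P) → ZMod 2) →ₗ[ZMod 2] ((Fin m → P) → ZMod 2), (∀ g ∈ Idl p S σ J, Pr g ∈ Idl p S σ J) ∧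
      (∀ κ' : Fin m → K, (∀ i, i ∉ Vr S J → κ' i = κ i) → Pr (tb bs κ') = tb bs κ') ∧
      ∀ κ' : Fin m → K, ¬ (∀ i, i ∉ Vr S J → κ' i = κ i) → Pr (tb bs κ') = 0 := by
  sorry

theorem nf_exists (hli : LinearIndependent (ZMod 2) bs) (hsp : ∀ h : P → ZMod 2, h ∈ Submodule.span (ZMod 2) (Set.range bs))
    (J : Finset ι) (κ : Fin m → K) :
    ∃ h ∈ spn bs {κ' : Fin m → K | ¬ Red bs ρ p S σ J κ' ∧ ρ κ' ≤ ρ κ ∧ ∀ i, i ∉ Vr S J → κ' i = κ i},
      tb bs κ + h ∈ Idl p S σ J := by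
  sorry

end H43AF
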