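import Pool.Agent.H43.AF.Rk

/-!
ROW AFOmg (the measure; about 130 lines).  Template: Pool/Agent/H96/RE/Split.lean (with `RM V D` replaced by `L D`, `(RM V D) * (RM V e)` by `hF.mul`).
`pow_mul_mem`: `Submodule.pow_induction_on_left'` or induction on `e` with `A ^ (e+1) = A * A ^ e` (`pow_succ'`), `Submodule.mul_induction_on`.
`rk_split`: the map `h ↦ h * p` from `L D` to `L (D + e) ⊓ van (Y ∩ {p = 0})`, exactly as in the template.
`om_summable`: `rk ≤ card X` (`rk_le_card`), geometric series.  `Om_split`: as in the template.  `Om_mono`, `Om_nonneg`: term by term.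
`pow_mul_rk_le`: `rk_mono_deg`.
-/

set_option autoImplicit false
open scoped Classical

namespace H43AF

variable {X : Type} [Fintype X] {A : Submodule (ZMod 2) (X → ZMod 2)} {L : ℕ → Submodule (ZMod 2) (X → ZMod 2)} {q : ℝ}

theorem L_mono (hF : Flt A L) {D D' : ℕ} (h : D ≤ D') : L D ≤ L D' := by
  sorry

theorem pow_mono' (hF : Flt A L) {e e' : ℕ} (h : e ≤ e') : A ^ e ≤ A ^ e' := by
  sorry

theorem one_mem_pow (hF : Flt A L) (e : ℕ) : (1 : X → ZMod 2) ∈ A ^ e := by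
  sorry

theorem pow_mul_mem (hF : Flt A L) {e D : ℕ} {a g : X → ZMod 2} (ha : a ∈ A ^ e) (hg : g ∈ L D) : a * g ∈ L (D + e) := by
  sorry

theorem om_summable (h0 : 0 ≤ q) (h1 : q < 1) (Y : Set X) : Summable (fun D : ℕ => q ^ D * (rk L D Y : ℝ)) := by
  sorry

theorem Om_nonneg (h0 : 0 ≤ q) (h1 : q < 1) (Y : Set X) : 0 ≤ Om L q Y := by
  sorry

theorem Om_mono (h0 : 0 ≤ q) (h1 : q < 1) {Y Y' : Set X} (h : Y ⊆ Y') : Om L q Y ≤ Om L q Y' := by
  sorry

theorem Om_empty : Om L q (∅ : Set X) = 0 := by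
  sorry

theorem Om_split (hF : Flt A L) (h0 : 0 ≤ q) (h1 : q < 1) {e : ℕ} {p : X → ZMod 2} (hp : p ∈ A ^ e) (Y : Set X) :
    Om L q (Y ∩ {x | p x = 0}) + q ^ e * Om L q (Y ∩ {x | p x = 1}) ≤ Om L q Y := by
  sorry

theorem pow_mul_rk_le (hF : Flt A L) (h0 : 0 ≤ q) (h1 : q < 1) (D : ℕ) (Y : Set X) : q ^ D * (rk L D Y : ℝ) ≤ Om L q Y := by
  sorry

end H43AF
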