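import Pool.Agent.H43.AF.Rop

/-!
ROW AFOpk (Theorem A; about 150 lines).  PROOF.  Take `ρ` with `IsRk cost ρ` (`rk_exists`: `ρ κ = ct κ * card + index of κ`, `Fintype.equivFin`), `R` from `exists_R`, `K0 = ker R`.
Put `T J = {κ | ct κ ≤ q0 Λ ∧ Sup (Qu κ) ⊆ J}`.  All sets `Q` below have `|Q| ≤ q0` (`qu_card`, `D0 + r Λ ≤ q0 Λ`, `r ≥ 1`, `Λ ≥ 1`).
(K1) For `κ` with `ct κ ≤ D`, `D + r Λ ≤ D0`: the function `g j κ : x ↦ if x ∈ Zs j then tb κ x else 0` is a product function with factors `bs (κ i)` for `i ∉ S j` and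
`z ↦ if p z = σ j i then bs (κ i) z else 0` for `i ∈ S j`, so by `prod_mem` (`U i = {κ i}` resp. `univ`, `hG.spans`) it is in the span of the `tb κ'` with `κ' = κ` outside `S j`: these have
`ct κ' ≤ ct κ + r Λ ≤ D0` and `Qu κ' ⊆ Qu κ ∪ S j`.  Let `J = Sup (Qu κ ∪ S j)`, `|J| ≤ s` (`sup_con`), `j ∈ J` (`mem_sup`).  `Sup (Qu κ') ⊆ J` (`sup_mono`), and the function is in
`Idl J` (it vanishes outside `Zs j`).  So `R` kills it.  Span induction for `g ∈ LL D`.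
(K2) For `κ` with `ct κ ≤ D < D0`: `R (a_i * tb κ) = R (a_i * R (tb κ))`, `a_i = fun x => a (x i)`.  `J = Sup (Qu κ ∪ {i})`, `|J| ≤ s`.  `a_i * tb κ ∈ spn (T J)` by `mul_tb` (`ct_update`,
`Qu (update κ i k) ⊆ Qu κ ∪ {i}`).  `a_i * R (tb κ) ∈ spn (T J)`: for `κ'` in the support set of `R (tb κ)`: `ct κ' ≤ ct κ`, `Qu (update κ' i k) ⊆ Qu κ' ∪ {i} ⊆ (Qu κ ∪ {i}) ∪ Vr (Sup (Qu κ))`
and `Sup (Qu κ) ⊆ J`, so `sup_sub` gives `Sup (Qu (update κ' i k)) ⊆ J`.  `a_i * (tb κ + R (tb κ)) ∈ Idl (Sup (Qu κ)) ≤ Idl J`.  So `R (a_i * (tb κ + R (tb κ))) = 0`; characteristic 2.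
By span induction `R (a_i * g) = R (a_i * R g)` for `g ∈ LL D`, which is `0` if `R g = 0`.
(K3) if `|Qu κ ∩ S j| ≤ t` for all `j` then `Sup (Qu κ) = ∅` (`sup_empty`), `Idl ∅ = {0}`, so `R (tb κ) = tb κ`; hence `R g = g` on the span.
-/

set_option autoImplicit false
open scoped Classical

namespace H43AF

variable {m : ℕ} {P K : Type} [Fintype P] [Fintype K] {bs : K → P → ZMod 2} {cost : K → ℕ} {Λ : ℕ} {p : P → ZMod 2}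
  {A0 : Submodule (ZMod 2) (P → ZMod 2)} {E : ZMod 2 → ((P → ZMod 2) →ₗ[ZMod 2] (P → ZMod 2))}
  {ι : Type} [Fintype ι] {S : ι → Finset (Fin m)} {t s q0 r D0 : ℕ}

omit [Fintype P] in
theorem rk_exists (cost : K → ℕ) : ∃ ρ : (Fin m → K) → ℕ, IsRk cost ρ := by
  sorry

theorem thmA (hG : Gdt bs cost Λ p A0 E) (σ : ι → Fin m → ZMod 2) (hS : ∀ j, (S j).card ≤ r) (hr : 1 ≤ r) (hs : 1 ≤ s)
    (hE : Expn S t s) (hq : 2 * q0 ≤ t * s) (hD : D0 + r * Λ ≤ q0 * Λ) :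
    ∃ K0 : Submodule (ZMod 2) ((Fin m → P) → ZMod 2),
      (∀ D, D + r * Λ ≤ D0 → ∀ g ∈ LL m bs cost D, ∀ j, (fun x => if x ∈ Zs p S σ j then g x else 0) ∈ K0) ∧
      (∀ D < D0, ∀ (i : Fin m), ∀ a ∈ A0, ∀ g ∈ K0, g ∈ LL m bs cost D → (fun x => a (x i) * g x) ∈ K0) ∧
      ∀ g ∈ K0, g ∈ spn bs {κ : Fin m → K | ∀ j, (Qu cost Λ κ ∩ S j).card ≤ t} → g = 0 := by
  sorry

end H43AF
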