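import Pool.Agent.H43.AF.Nrm
import Pool.Agent.H43.AF.Loc

/-!
ROW AFRop (the reduction operator; about 120 lines).  PROOF.
`|Qu κ| * Λ ≤ ct κ` (the blocks of `Qu κ` have cost `Λ`), so `ct κ ≤ q0 * Λ` gives `|Qu κ| ≤ q0` (`Λ ≥ 1`).  `ρ κ' ≤ ρ κ` gives `ct κ' ≤ ct κ` (`hρ.2`).
For every `κ` choose `r κ` from `nf_exists` for `J = Sup (Qu κ)`.  `R` = the linear map with `R (tb κ) = r κ` (`tb_indep`, `tb_span`: `Module.Basis.mk`, `Module.Basis.constr`).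
`r κ ∈ NF J` if `ct κ ≤ q0 Λ`, `Sup (Qu κ) ⊆ J`, `|J| ≤ s`: let `κ'` be one of the indices in the span for `r κ`: `κ'` is irreducible for `Sup (Qu κ)`, `ct κ' ≤ ct κ ≤ q0 Λ`, `κ' = κ` outside
`Vr (Sup (Qu κ))`, so `Qu κ' ⊆ Qu κ ∪ Vr (Sup (Qu κ))` and `Sup (Qu κ') ⊆ Sup (Qu κ)` (`sup_sub`).  If `κ'` were `J`-reducible, then it would be reducible for `Sup (Qu κ')` (`red_sup`) and for
`Sup (Qu κ)` (`red_mono`): contradiction.
So (span induction) `R g ∈ NF J` and `g + R g ∈ Idl J` (`idl_mono`) for `g` in the span of the `tb κ` with `ct κ ≤ q0 Λ`, `Sup (Qu κ) ⊆ J`; if `g ∈ Idl J` then `R g ∈ Idl J`, so `R g = 0` by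
`nf_zero`.
-/

set_option autoImplicit false
open scoped Classical

namespace H43AF

variable {m : ℕ} {P K : Type} [Fintype P] [Fintype K] {bs : K → P → ZMod 2} {cost : K → ℕ} {Λ : ℕ} {p : P → ZMod 2}
  {A0 : Submodule (ZMod 2) (P → ZMod 2)} {E : ZMod 2 → ((P → ZMod 2) →ₗ[ZMod 2] (P → ZMod 2))}
  {ρ : (Fin m → K) → ℕ} {ι : Type} [Fintype ι] {S : ι → Finset (Fin m)} {σ : ι → Fin m → ZMod 2} {t s q0 : ℕ}

omit [Fintype P] [Fintype K] in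
theorem qu_card (κ : Fin m → K) : (Qu cost Λ κ).card * Λ ≤ ct cost κ := by
  sorry

/-- `R` with `R (tb κ)` in the span of the irreducible `κ'` of smaller or equal rank which agree with `κ` outside the blocks of
`Sup (Qu κ)`, and `R g = 0` for `g ∈ Idl J` supported on `κ` with `Sup (Qu κ) ⊆ J` -/
theorem exists_R (hG : Gdt bs cost Λ p A0 E) (hρ : IsRk cost ρ) (hE : Expn S t s) (hq : 2 * q0 ≤ t * s) :
    ∃ R : ((Fin m → P) → ZMod 2) →ₗ[ZMod 2] ((Fin m → P) → ZMod 2),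
      (∀ κ : Fin m → K, R (tb bs κ) ∈ spn bs {κ' : Fin m → K | ρ κ' ≤ ρ κ ∧
        ∀ i, i ∉ Vr S (Sup S s (Qu cost Λ κ)) → κ' i = κ i}) ∧
      (∀ κ : Fin m → K, tb bs κ + R (tb bs κ) ∈ Idl p S σ (Sup S s (Qu cost Λ κ))) ∧
      ∀ (J : Finset ι) (g : (Fin m → P) → ZMod 2), J.card ≤ s → g ∈ Idl p S σ J →
        g ∈ spn bs {κ : Fin m → K | ct cost κ ≤ q0 * Λ ∧ Sup S s (Qu cost Λ κ) ⊆ J} → R g = 0 := by
  sorry

end H43AF
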