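import Pool.Agent.H43.AF.Defs

/-!
ROW AFTb (product functions; about 130 lines).  PROOF.
`prod_mem`: write `f i = ∑_k c i k • bs k` with `c i k = 0` for `k ∉ U i` (`Submodule.mem_span_image_iff_exists_fun` or `Finsupp.mem_span_image_iff_linearCombination`,
`K` finite); `∏_i f i (x i) = ∑_κ ∏_i (c i (κ i) * bs (κ i) (x i))` (`Finset.prod_univ_sum` / `Fintype.piFinset_univ`), and `∏_i c i (κ i) = 0` unless all `κ i ∈ U i`.
`tb_span`: for `g` write `g = ∑_y g y • δ_y`, `δ_y x = ∏_i (if x i = y i then 1 else 0)`, and use `prod_mem` with `U i = univ`.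
`bop_tb`: `bop v B (tb bs κ) x = ∏_i (if i = v then B (bs (κ v)) else bs (κ i)) (x i)` (take the factors `i ≠ v` out of the linear map: they do not depend on `z`;
`Finset.mul_prod_erase`, `Finset.prod_update_of_mem` or `Finset.prod_ite`-style rewriting).
`bop_mem`: `bop_tb` and `prod_mem` with `U v = U`, `U i = {κ i}`.  `bop_id`: `bop_tb`.
`proj`: extend the independent family `bs` which spans to a basis (`Module.Basis.mk`) and use `Module.Basis.constr`.
`tb_indep`: suppose `∑_κ c κ • tb bs κ = 0` (`Fintype.linearIndependent_iff`).  Fix `κ0`; apply all the operators `bop i (π (κ0 i))`, `i : Fin m`, one after the other (`proj`): the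
result is `c κ0 • tb bs κ0 = 0`, and `tb bs κ0 ≠ 0` because each `bs (κ0 i) ≠ 0` (`LinearIndependent.ne_zero`) is nonzero at some point `x i`.
(Or: induction on `m`.)
-/

set_option autoImplicit false
open scoped Classical

namespace H43AF

variable {m : ℕ} {P K : Type} [Fintype P] [Fintype K]

theorem prod_mem (bs : K → P → ZMod 2) (f : Fin m → P → ZMod 2) (U : Fin m → Set K)
    (hf : ∀ i, f i ∈ Submodule.span (ZMod 2) (bs '' U i)) :
    (fun x : Fin m → P => ∏ i, f i (x i)) ∈ spn bs {κ : Fin m → K | ∀ i, κ i ∈ U i} := by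
  sorry

theorem tb_span (bs : K → P → ZMod 2) (hsp : ∀ h : P → ZMod 2, h ∈ Submodule.span (ZMod 2) (Set.range bs))
    (g : (Fin m → P) → ZMod 2) : g ∈ spn bs (Set.univ : Set (Fin m → K)) := by
  sorry

theorem bop_tb (bs : K → P → ZMod 2) (v : Fin m) (B : (P → ZMod 2) →ₗ[ZMod 2] (P → ZMod 2)) (κ : Fin m → K) :
    bop v B (tb bs κ) = fun x => ∏ i, (if i = v then B (bs (κ v)) else bs (κ i)) (x i) := by
  sorry

theorem bop_mem (bs : K → P → ZMod 2) (v : Fin m) (B : (P → ZMod 2) →ₗ[ZMod 2] (P → ZMod 2)) (κ : Fin m → K) (U : Set K)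
    (h : B (bs (κ v)) ∈ Submodule.span (ZMod 2) (bs '' U)) :
    bop v B (tb bs κ) ∈ spn bs {κ' : Fin m → K | ∃ k ∈ U, κ' = Function.update κ v k} := by
  sorry

theorem bop_id (bs : K → P → ZMod 2) (v : Fin m) (B : (P → ZMod 2) →ₗ[ZMod 2] (P → ZMod 2)) (κ : Fin m → K)
    (h : B (bs (κ v)) = bs (κ v)) : bop v B (tb bs κ) = tb bs κ := by
  sorry

theorem bop_zero (bs : K → P → ZMod 2) (v : Fin m) (B : (P → ZMod 2) →ₗ[ZMod 2] (P → ZMod 2)) (κ : Fin m → K)
    (h : B (bs (κ v)) = 0) : bop v B (tb bs κ) = 0 := by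
  sorry

theorem proj (bs : K → P → ZMod 2) (hli : LinearIndependent (ZMod 2) bs)
    (hsp : ∀ h : P → ZMod 2, h ∈ Submodule.span (ZMod 2) (Set.range bs)) (k0 : K) :
    ∃ π : (P → ZMod 2) →ₗ[ZMod 2] (P → ZMod 2), π (bs k0) = bs k0 ∧ ∀ k, k ≠ k0 → π (bs k) = 0 := by
  sorry

theorem tb_indep (bs : K → P → ZMod 2) (hli : LinearIndependent (ZMod 2) bs)
    (hsp : ∀ h : P → ZMod 2, h ∈ Submodule.span (ZMod 2) (Set.range bs)) :
    LinearIndependent (ZMod 2) (fun κ : Fin m → K => tb bs κ) := by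
  sorry

end H43AF
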