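import Pool.Agent.H43.AF.CktA
import Pool.Agent.H43.AF.Ded

/-!
ROW AFThmC (Theorem C, abstract form; about 80 lines).  PROOF.  Take the refutation `g, lev, len, l` and `a`, `Er` from `ckt_approx`.
`E0 = e d` (`e (lev i) ≤ e d` because `e` is monotone up to `d` and `lev i ≤ d`; `pow_mono'`).  If `∑_(i<N) rk L D' (Er i) < finrank (Gd)`, then by
`rk_iUnion` and `exists_van` there is `φ ∈ Gd`, `φ ≠ 0`, vanishing on `{x | ∃ i < N, x ∈ Er i}`, so `φ x ≠ 0 → a i x = g i x` for all `i < N`; `ded` gives `φ ∈ K`,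
contradiction with `hG2`.  Hence `finrank Gd ≤ ∑ rk L D' (Er i)`; multiply by `q^D'` and use `pow_mul_rk_le` and the bound on `Om (Er i)`.
-/

set_option autoImplicit false
open scoped Classical

namespace H43AF

variable {X : Type} [Fintype X] {A : Submodule (ZMod 2) (X → ZMod 2)} {L : ℕ → Submodule (ZMod 2) (X → ZMod 2)} {q : ℝ}

theorem thmC {ι : Type} (hF : Flt A L) (h0 : 0 ≤ q) (h1 : q < 1) (K : Submodule (ZMod 2) (X → ZMod 2)) {D0 D1 : ℕ}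
    (hK2 : ∀ D < D0, ∀ a ∈ A, ∀ g ∈ K, g ∈ L D → a * g ∈ K) (Z : ι → Set X)
    (hK1 : ∀ g ∈ L D1, ∀ j, (fun x => if x ∈ Z j then g x else 0) ∈ K)
    {d f N : ℕ} {V : Set (X → ZMod 2)} (hV : ∀ v ∈ V, v ∈ A)
    (hR : Refutes V d f N (fun (j : ι) (x : X) => if x ∈ Z j then (0 : ZMod 2) else 1)) (e w : ℕ → ℕ) (he0 : 1 ≤ e 0)
    (he : ∀ h < d, e h ≤ e (h + 1) ∧ e h * w (h + 1) ≤ e (h + 1)) {ε : ℝ} (hε0 : 0 ≤ ε)
    (hε : ∀ h < d, (1 - q ^ e h / 2) ^ w (h + 1) ≤ ε) {D' : ℕ} (hD1 : D' + e d ≤ D1) (hD0 : D' + (f + 1) * e d ≤ D0)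
    (Gd : Submodule (ZMod 2) (X → ZMod 2)) (hG1 : Gd ≤ L D') (hG2 : Disjoint Gd K) :
    (Module.finrank (ZMod 2) ↥Gd : ℝ) * q ^ D' ≤ N * (ε * Om L q Set.univ) := by
  sorry

end H43AF
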